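import Pool.Agent.R533.Mey.Fool

set_option autoImplicit false
open N6ef48c04

namespace Pool.Agent.Results.MP_964892_co.FoolingSets

/-!
# The cop number and fooling sets (cross-free matchings)

Write `x ≃ z` if `x` is equal or adjacent to `z`. A set of arcs `x z` of `G` is a fooling set if it
does not contain two arcs `x z` and `x' z'` with `x ≃ z'` and `x' ≃ z`; in other words, no two of
its members are in a common biclique (of the closed adjacency relation). Fooling sets have at most
`n` members. If `f` is the largest size of a fooling set of the connected graph `G` then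
`c(G) = O(√f log² n)`. So Meyniel's bound `c(G) = O(√n)` holds for all connected graphs on `n`
vertices with `f (log n + 1)⁴ ≤ n`. Only the arcs which end outside the closed neighbourhood of a set
`S` of guards need to be considered. The starting file `BicliqueCovers` has the number `b` of the
members of a covering of the arcs by bicliques in place of `f`; here it is enough that few members
of such a covering are pairwise not mergeable, however many members there are.

Proof idea. In the entropy method of the starting files (`W149.VD`) cops imitate the robber of the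
game with exchanged roles, and a cop is useful if he arrives in the same biclique as the robber. Now
the destinations of the robber and of the cop are coupled: the pair has the right marginals, both
destinations are always in mergeable bicliques, and subject to this the mutual information is
minimal. By the optimality conditions and the theorem of Motzkin and Straus, the mutual information
is at most `log f`; and if both players follow the coupled lottery, it can only be lost once
during the game. So a robber who chooses the best answers to `√f log n` random imitators cannot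
avoid that one of them arrives in a biclique which is mergeable with his own.
-/

/-- Let `G` be a connected graph on `n` vertices.
(1) Let `S` be a set of vertices and let `A e`, `B e` (`e ∈ E`, `N` members) be sets of vertices
such that every vertex of `A e` is equal or adjacent to every vertex of `B e`. Suppose that for every
edge `x z` (in both directions) `z` is in the closed neighbourhood of `S`, or `x ∈ A e`, `z ∈ B e`
for some `e`. Call `e` and `e'` mergeable if every vertex of `A e` is equal or adjacent to every
vertex of `B e'` and every vertex of `A e'` is equal or adjacent to every vertex of `B e`. Let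
`1 ≤ f ≤ N`. If every set of pairwise not mergeable members of `E` has at most `f` members, then
`c(G) ≤ |S| + (4 + 1.25 log (N / f)) (9 log n + 18 log N + 7.24) √f + 2`.
(2) Let `S` be a set of vertices. Suppose that `|I| ≤ f` for every set `I` of pairs `(x, z)` of
adjacent vertices with `z` outside the closed neighbourhood of `S`, such that for any two different
members `(x, z)` and `(x', z')` of `I`, `x` is neither equal nor adjacent to `z'`, or `x'` is neither
equal nor adjacent to `z`. Then `c(G) ≤ |S| + 113 (log n + 1)² √f + 2`, and
`c(G) ≤ |S| + 115 √n` if `f (log n + 1)⁴ ≤ n`.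
(3) The hypothesis of (2) always holds for `f = n`. -/
theorem result {V : Type*} [Fintype V] (G : SimpleGraph V) (hG : G.Connected) :
    (∀ (E : Type) [Fintype E] (A B : E → Set V) (S : Finset V) (f : ℕ),
      (∀ e, ∀ a ∈ A e, ∀ b ∈ B e, a = b ∨ G.Adj a b) →
      (∀ x z, G.Adj x z → (∃ s ∈ S, s = z ∨ G.Adj s z) ∨ ∃ e, x ∈ A e ∧ z ∈ B e) →
      1 ≤ f → f ≤ Fintype.card E →
      (∀ I : Finset E, (∀ e ∈ I, ∀ e' ∈ I, e ≠ e' →
        ¬ ((∀ a ∈ A e, ∀ b ∈ B e', a = b ∨ G.Adj a b) ∧
          (∀ a ∈ A e', ∀ b ∈ B e, a = b ∨ G.Adj a b))) → I.card ≤ f) →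
      (copNumber G : ℝ) ≤ S.card + (4 + 1.25 * Real.log ((Fintype.card E : ℝ) / f)) *
        (9 * Real.log (Fintype.card V) + 18 * Real.log (Fintype.card E) + 7.24) * √(f : ℝ) + 2) ∧
    (∀ (S : Finset V) (f : ℕ),
      (∀ I : Finset (V × V),
        (∀ p ∈ I, G.Adj p.1 p.2 ∧ ¬ ∃ s ∈ S, s = p.2 ∨ G.Adj s p.2) →
        (∀ p ∈ I, ∀ q ∈ I, p ≠ q →
          ¬ ((p.1 = q.2 ∨ G.Adj p.1 q.2) ∧ (q.1 = p.2 ∨ G.Adj q.1 p.2))) → I.card ≤ f) →
      (copNumber G : ℝ) ≤ S.card + 113 * (Real.log (Fintype.card V) + 1) ^ 2 * √(f : ℝ) + 2 ∧
        ((f : ℝ) * (Real.log (Fintype.card V) + 1) ^ 4 ≤ Fintype.card V →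
          (copNumber G : ℝ) ≤ S.card + 115 * √(Fintype.card V))) ∧
    (∀ I : Finset (V × V), (∀ p ∈ I, G.Adj p.1 p.2) →
      (∀ p ∈ I, ∀ q ∈ I, p ≠ q →
        ¬ ((p.1 = q.2 ∨ G.Adj p.1 q.2) ∧ (q.1 = p.2 ∨ G.Adj q.1 p.2))) →
      I.card ≤ Fintype.card V) := by
  classical
  have : Nonempty V := hG.nonempty
  have hn1 : (1 : ℝ) ≤ Fintype.card V := by exact_mod_cast Fintype.card_pos
  have hlog : 0 ≤ Real.log (Fintype.card V) := Real.log_nonneg hn1
  have hs1 : 1 ≤ √(Fintype.card V : ℝ) := Real.one_le_sqrt.2 hn1
  refine ⟨?_, ?_, ?_⟩
  · intro E _ A B S f hAB hcov hf1 hfN hf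
    have h1 := Pool.Agent.R533.Mey.fool_bound G hG A B hAB S hcov f hf1 hfN (fun I hI => hf I
      (fun e he e' he' hne => hI e he e' he' hne))
    have h2 : 9 * (Real.log (Fintype.card V) + 2 * Real.log (Fintype.card E)) + 7.24 =
      9 * Real.log (Fintype.card V) + 18 * Real.log (Fintype.card E) + 7.24 := by ring
    rw [h2] at h1
    exact h1
  · intro S f hf
    have main : (copNumber G : ℝ) ≤
        S.card + 113 * (Real.log (Fintype.card V) + 1) ^ 2 * √(f : ℝ) + 2 := by
      let E := {p : V × V // G.Adj p.1 p.2 ∧ ¬ ∃ s ∈ S, s = p.2 ∨ G.Adj s p.2}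
      let A : E → Set V := fun e => {e.1.1}
      let B : E → Set V := fun e => {e.1.2}
      have hAB : ∀ e : E, ∀ a ∈ A e, ∀ b ∈ B e, a = b ∨ G.Adj a b := by
        rintro e a rfl b rfl
        exact Or.inr e.2.1
      have hcov : ∀ x z, G.Adj x z → (∃ s ∈ S, s = z ∨ G.Adj s z) ∨ ∃ e : E, x ∈ A e ∧ z ∈ B e := by
        intro x z hxz
        by_cases h : ∃ s ∈ S, s = z ∨ G.Adj s z
        · exact Or.inl h
        · exact Or.inr ⟨⟨(x, z), hxz, h⟩, rfl, rfl⟩
      have hnn : 0 ≤ 113 * (Real.log (Fintype.card V) + 1) ^ 2 * √(f : ℝ) := by positivity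
      rcases isEmpty_or_nonempty E with hE | hE
      · have h1 := Pool.Agent.Y241.Mey.bc_bound G hG A B hAB S hcov
        rw [Fintype.card_eq_zero (α := E), Nat.cast_zero, Real.sqrt_zero, mul_zero] at h1
        linarith
      · have hf' : ∀ I : Finset E, (∀ e ∈ I, ∀ e' ∈ I, e ≠ e' →
            ¬ Pool.Agent.R533.Mey.Merge G A B e e') → I.card ≤ f := by
          intro I hI
          have h1 := hf (I.map (Function.Embedding.subtype _)) (by
            intro p hp
            obtain ⟨e, -, rfl⟩ := Finset.mem_map.1 hp
            exact e.2) (by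
            intro p hp q hq hpq hm
            obtain ⟨e, he, rfl⟩ := Finset.mem_map.1 hp
            obtain ⟨e', he', rfl⟩ := Finset.mem_map.1 hq
            refine hI e he e' he' (fun h => hpq (by rw [h])) ⟨?_, ?_⟩
            · rintro a rfl b rfl
              exact hm.1
            · rintro a rfl b rfl
              exact hm.2)
          rwa [Finset.card_map] at h1
        have hf1 : 1 ≤ f := by
          obtain ⟨e⟩ := hE
          have := hf' {e} (by
            intro i hi j hj hij
            rw [Finset.mem_singleton] at hi hj
            exact (hij (hi.trans hj.symm)).elim)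
          rwa [Finset.card_singleton] at this
        have hE1 : 1 ≤ Fintype.card E := Fintype.card_pos
        set g : ℕ := min f (Fintype.card E) with hg
        have hg1 : 1 ≤ g := le_min hf1 hE1
        have hgf : g ≤ f := min_le_left _ _
        have h1 := Pool.Agent.R533.Mey.fool_bound G hG A B hAB S hcov g hg1 (min_le_right _ _)
          (fun I hI => le_min (hf' I hI) (Finset.card_le_univ I))
        have hEn : (Fintype.card E : ℝ) ≤ (Fintype.card V : ℝ) ^ 2 := by
          have : Fintype.card E ≤ Fintype.card (V × V) := Fintype.card_subtype_le _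
          rw [Fintype.card_prod, ← sq] at this
          exact_mod_cast this
        have hE1' : (1 : ℝ) ≤ Fintype.card E := by exact_mod_cast hE1
        have hg1' : (1 : ℝ) ≤ g := by exact_mod_cast hg1
        have hgf' : (g : ℝ) ≤ f := by exact_mod_cast hgf
        have hlE : Real.log (Fintype.card E) ≤ 2 * Real.log (Fintype.card V) := by
          have h3 := Real.log_le_log (by linarith) hEn
          rw [Real.log_pow] at h3
          exact_mod_cast h3
        have hlE0 : 0 ≤ Real.log (Fintype.card E) := Real.log_nonneg hE1'
        have hlr : Real.log ((Fintype.card E : ℝ) / g) ≤ 2 * Real.log (Fintype.card V) := by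
          rw [Real.log_div (by linarith) (by linarith)]
          have := Real.log_nonneg hg1'
          linarith
        have hlr0 : 0 ≤ Real.log ((Fintype.card E : ℝ) / g) := by
          refine Real.log_nonneg ?_
          rw [one_le_div (by linarith)]
          exact_mod_cast min_le_right f (Fintype.card E)
        set y := Real.log (Fintype.card V : ℝ) with hy
        have hsg : √(g : ℝ) ≤ √(f : ℝ) := Real.sqrt_le_sqrt hgf'
        have h5 : (4 + 1.25 * Real.log ((Fintype.card E : ℝ) / g)) *
            (9 * (y + 2 * Real.log (Fintype.card E)) + 7.24) ≤ 113 * (y + 1) ^ 2 := by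
          have h6 : (4 + 1.25 * Real.log ((Fintype.card E : ℝ) / g)) ≤ 4 + 2.5 * y := by linarith
          have h7 : (9 * (y + 2 * Real.log (Fintype.card E)) + 7.24) ≤ 45 * y + 7.24 := by linarith
          calc _ ≤ (4 + 2.5 * y) * (45 * y + 7.24) :=
                mul_le_mul h6 h7 (by positivity) (by positivity)
            _ ≤ _ := by nlinarith
        have h8 : (4 + 1.25 * Real.log ((Fintype.card E : ℝ) / g)) *
            (9 * (y + 2 * Real.log (Fintype.card E)) + 7.24) * √(g : ℝ) ≤
            113 * (y + 1) ^ 2 * √(f : ℝ) :=
          mul_le_mul h5 hsg (Real.sqrt_nonneg _) (by positivity)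
        linarith
    refine ⟨main, fun h => ?_⟩
    have h2 : (Real.log (Fintype.card V) + 1) ^ 2 * √(f : ℝ) ≤ √(Fintype.card V : ℝ) := by
      apply Real.le_sqrt_of_sq_le
      rw [mul_pow, Real.sq_sqrt (Nat.cast_nonneg _), ← pow_mul, mul_comm]
      exact h
    nlinarith
  · intro I hI hm
    have h1 : Set.InjOn (fun p : V × V => p.1) (I : Set (V × V)) := by
      intro p hp q hq hpq
      by_contra hne
      have hpq' : p.1 = q.1 := hpq
      refine hm p hp q hq hne ⟨Or.inr ?_, Or.inr ?_⟩
      · rw [hpq']; exact hI q hq
      · rw [← hpq']; exact hI p hp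
    have h2 := Finset.card_le_card_of_injOn (fun p : V × V => p.1)
      (fun p _ => Finset.mem_univ (α := V) p.1) h1
    rwa [Finset.card_univ] at h2

end Pool.Agent.Results.MP_964892_co.FoolingSets
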