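import Mathlib
import Pool.Prelude.Def_F_8db9d53c
import Pool.Agent.Y392.Mey.Comm
import Pool.Agent.R2.GL.Free

set_option autoImplicit false
open N6ef48c04

namespace Pool.Agent.Results.MP_964892_co.LargePrimeOrbits

/-!
# Meyniel's bound for graphs whose automorphism orbits are divisible by a large prime

For instance every connected vertex-transitive graph with `k p` vertices, `p` prime, satisfies
Meyniel's bound with a constant which only depends on `k`. Nothing is assumed about the group of
automorphisms (it may be insoluble, and the graph need not be a Cayley graph).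

Proof idea. Let `n < p ^ 2`. A Sylow `p`-subgroup `P` of the group of automorphisms has orbits of
length at least `p`, hence fewer than `p` orbits, and by a counting argument some element of `P` has
no fixed point. Its orbits have length exactly `p`, because their lengths are powers of `p` below
`p ^ 2`. So its order is `p`, it generates a cyclic group which acts freely with `n / p` orbits, and
the bound of the starting file `CommutingAutomorphisms` for commutative groups applies.
-/

/-- a commutative group of automorphisms with `n / p` orbits -/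
theorem exists_group {V : Type} [Fintype V] [Nonempty V] (G : SimpleGraph V) {p : ℕ}
    (hp : p.Prime) (h2 : Fintype.card V < p ^ 2)
    (h1 : ∀ x : V, p ∣ Nat.card {y : V // ∃ a : G ≃g G, a x = y}) :
    ∃ (Γ : Subgroup (G ≃g G)) (S : Finset V), (∀ a ∈ Γ, ∀ b ∈ Γ, a * b = b * a) ∧
      S.card * p = Fintype.card V ∧ ∀ x, ∃ s ∈ S, ∃ a ∈ Γ, a s = x := by
  classical
  let act : MulAction (G ≃g G) V := RelIso.applyMulAction
  have hfin : Finite (G ≃g G) := Finite.of_injective (fun a : G ≃g G => (a : V → V))
    DFunLike.coe_injective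
  have horb : ∀ x : V, p ∣ Nat.card (MulAction.orbit (G ≃g G) x) := by
    intro x
    exact h1 x
  obtain ⟨c, hc, hfree⟩ := Pool.Agent.R2.GL.exists_free hp (G := G ≃g G) (Ω := V)
    (fun g hg => DFunLike.ext _ _ hg) horb (by rwa [Nat.card_eq_fintype_card])
  have hk : ∃ k, Fintype.card V = k * Nat.card (Subgroup.zpowers c) := by
    rw [Nat.card_zpowers, hc]
    have h3 : Nat.card V = Nat.card (MulAction.orbitRel.Quotient (Subgroup.zpowers c) V) *
        Nat.card (Subgroup.zpowers c) := by
      have e := MulAction.selfEquivSigmaOrbitsQuotientStabilizer (Subgroup.zpowers c) V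
      rw [Nat.card_congr e]
      have hQ : Finite (MulAction.orbitRel.Quotient (Subgroup.zpowers c) V) := Quotient.finite _
      have hst : ∀ ω : MulAction.orbitRel.Quotient (Subgroup.zpowers c) V,
          Nat.card (Subgroup.zpowers c ⧸ MulAction.stabilizer (Subgroup.zpowers c) ω.out) =
            Nat.card (Subgroup.zpowers c) := by
        intro ω
        have hbot : MulAction.stabilizer (Subgroup.zpowers c) ω.out = ⊥ := by
          rw [eq_bot_iff]
          intro a ha
          rw [Subgroup.mem_bot]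
          exact Subtype.ext (hfree a.1 a.2 _ ha)
        rw [hbot]
        exact Nat.card_congr (QuotientGroup.quotientBot (G := Subgroup.zpowers c)).toEquiv
      have : Fintype (MulAction.orbitRel.Quotient (Subgroup.zpowers c) V) := Fintype.ofFinite _
      rw [Nat.card_sigma]
      rw [Finset.sum_congr rfl (fun ω _ => hst ω)]
      simp [Nat.card_eq_fintype_card]
    rw [Nat.card_eq_fintype_card] at h3
    rw [Nat.card_zpowers, hc] at h3
    exact ⟨_, h3⟩
  obtain ⟨k, hk⟩ := hk
  obtain ⟨S, hS, hcov⟩ := Pool.Agent.R2.GL.exists_reps (A := Subgroup.zpowers c) (Ω := V)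
    (fun a ω h => Subtype.ext (hfree a.1 a.2 ω h)) hk
  refine ⟨Subgroup.zpowers c, S, ?_, ?_, ?_⟩
  · rintro a ⟨i, rfl⟩ b ⟨j, rfl⟩
    show c ^ i * c ^ j = c ^ j * c ^ i
    rw [← zpow_add, ← zpow_add, add_comm]
  · rw [hS, hk, Nat.card_zpowers, hc]
  · intro x
    obtain ⟨s, hs, a, ha⟩ := hcov x
    exact ⟨s, hs, a.1, a.2, ha⟩

theorem bound (k p : ℕ) (hp : p.Prime) {V : Type} [Fintype V] (G : SimpleGraph V)
    (hG : G.Connected) (hn : Fintype.card V ≤ k * p)
    (h1 : ∀ x : V, p ∣ Nat.card {y : V // ∃ a : G ≃g G, a x = y}) :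
    (copNumber G : ℝ) ≤ (2 * k + 433) * √(Fintype.card V : ℝ) + k +
      Pool.Agent.Y392.Mey.err k (Fintype.card V) := by
  have hne : Nonempty V := hG.nonempty
  by_cases h2 : Fintype.card V < p ^ 2
  · obtain ⟨Γ, S, hcomm, hS, hcov⟩ := exists_group G hp h2 h1
    refine Pool.Agent.Y392.Mey.aut_bound G hG Γ hcomm k S ?_ hcov
    refine Nat.le_of_mul_le_mul_right ?_ hp.pos
    rw [hS]
    exact hn
  · have h3 : p ≤ k := by
      by_contra h4
      have h5 : k * p < p * p := Nat.mul_lt_mul_of_pos_right (by omega) hp.pos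
      have h6 : p ^ 2 = p * p := pow_two p
      omega
    have h4 : (copNumber G : ℝ) ≤ Fintype.card V := by
      exact_mod_cast Pool.Agent.Y392.Mey.copNumber_le_card G
    have h5 : (Fintype.card V : ℝ) ≤ (k : ℝ) ^ 2 := by
      have : Fintype.card V ≤ k ^ 2 := hn.trans (by rw [pow_two]; exact Nat.mul_le_mul_left _ h3)
      exact_mod_cast this
    have h6 : √(Fintype.card V : ℝ) ≤ k := by
      rw [← Real.sqrt_sq (Nat.cast_nonneg k : (0 : ℝ) ≤ k)]
      exact Real.sqrt_le_sqrt h5
    have h7 : (Fintype.card V : ℝ) ≤ k * √(Fintype.card V : ℝ) := by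
      have h8 : √(Fintype.card V : ℝ) * √(Fintype.card V : ℝ) = Fintype.card V :=
        Real.mul_self_sqrt (Nat.cast_nonneg _)
      nlinarith [Real.sqrt_nonneg (Fintype.card V : ℝ)]
    have h9 : (0 : ℝ) ≤ Pool.Agent.Y392.Mey.err k (Fintype.card V) := by
      unfold Pool.Agent.Y392.Mey.err
      positivity
    have h10 := Real.sqrt_nonneg (Fintype.card V : ℝ)
    have h11 : (0 : ℝ) ≤ k := Nat.cast_nonneg k
    nlinarith [mul_nonneg h11 h10]

/-- Let `G` be a connected graph on `n ≤ k p` vertices, `p` prime, such that the length of every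
orbit of its group of automorphisms is divisible by `p` (for instance `G` vertex-transitive and
`n = k p`).
(1) `c(G) ≤ (2 k + 433) √n + k + k ^ 2 ((log n + 1) ^ 2 + k + 2) ^ (k ^ 2)`.
(2) `c(G) ≤ C √n`, where `C` depends only on `k`. -/
theorem result (k : ℕ) :
    (∀ p : ℕ, p.Prime → ∀ (V : Type) [Fintype V] (G : SimpleGraph V), G.Connected →
      Fintype.card V ≤ k * p →
      (∀ x : V, p ∣ Nat.card {y : V // ∃ a : G ≃g G, a x = y}) →
      (copNumber G : ℝ) ≤ (2 * k + 433) * √(Fintype.card V : ℝ) + k +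
        (k : ℝ) ^ 2 * ((Real.log (Fintype.card V) + 1) ^ 2 + k + 2) ^ (k ^ 2)) ∧
    ∃ C : ℝ, ∀ p : ℕ, p.Prime → ∀ (V : Type) [Fintype V] (G : SimpleGraph V), G.Connected →
      Fintype.card V ≤ k * p →
      (∀ x : V, p ∣ Nat.card {y : V // ∃ a : G ≃g G, a x = y}) →
      (copNumber G : ℝ) ≤ C * √(Fintype.card V : ℝ) := by
  refine ⟨fun p hp V _ G hG hn h1 => bound k p hp G hG hn h1, ?_⟩
  obtain ⟨C, hC, hC'⟩ := Pool.Agent.Y392.Mey.exists_err k
  refine ⟨(2 * k + 433) + k + C, fun p hp V _ G hG hn h1 => ?_⟩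
  have h2 := bound k p hp G hG hn h1
  have hne : Nonempty V := hG.nonempty
  have h3 : (1 : ℝ) ≤ Fintype.card V := by
    have : 1 ≤ Fintype.card V := Fintype.card_pos
    exact_mod_cast this
  have h4 := hC' _ h3
  have h5 : (1 : ℝ) ≤ √(Fintype.card V : ℝ) := by
    rw [← Real.sqrt_one]
    exact Real.sqrt_le_sqrt h3
  have h6 : (k : ℝ) ≤ k * √(Fintype.card V : ℝ) := by
    have : (0 : ℝ) ≤ k := Nat.cast_nonneg k
    nlinarith
  linarith

end Pool.Agent.Results.MP_964892_co.LargePrimeOrbits
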