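import Pool.Agent.R15.CopMim

set_option autoImplicit false
open N6ef48c04
open Pool.Agent.R15.CopMim

namespace Pool.Agent.Results.MP_964892_co.MimWidth

/-!
# The cop number, mim-width and recursive partitions with dominated boundaries

For a set `A` of vertices let `∂ A` be the set of its vertices with a neighbour outside `A`.

The mim-width of a graph is at most its treewidth, clique-width, rank-width and Boolean-width (up to
additive and multiplicative constants), and it is at most `1` for interval graphs and permutation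
graphs, at most `k` for `k`-polygon graphs, etc. The bound `c(G) ≤ 3 mimw(G)` of part (1) holds for
all of them. For Meyniel's conjecture it suffices to partition the set of vertices recursively until
the parts have at most `n / (log n + 1) ^ 2` vertices, and to dominate the boundaries of the parts
by `O(√n)` vertices (part (4)).

Proof idea. If the cops occupy a set `R` which dominates `∂ A` and the robber is in `A` and not
attacked then he cannot leave `A`. For a cut of mim-value `k` a minimal set `R` outside `A` which
dominates `∂ A` has at most `k` members, because its members with their private neighbours form an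
induced matching across the cut. While one team of `k` cops guards `A ⊆ B ∪ C`, two other teams
take positions which guard `B` and `C`. After the next move of the robber one of them is
enough. If `A` is small, the starting bound `81 √m (log m + 1)` is used in the component of the
robber.
-/

/-- Recursive bipartitions of a set `A` of vertices: `A` satisfies `L`, or it is contained in the
union of two sets which satisfy the condition `P` and have recursive bipartitions themselves. -/
inductive Layout {V : Type*} (P L : Set V → Prop) : Set V → Prop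
  | leaf (A : Set V) : L A → Layout P L A
  | node (A B C : Set V) : A ⊆ B ∪ C → P B → P C → Layout P L B → Layout P L C → Layout P L A

theorem lay_of_layout {V : Type*} {G : SimpleGraph V} {k N : ℕ} (hN : 3 * k ≤ N)
    {L : Set V → Prop} {A : Set V} (h : Layout (Guarded G k) L A) :
    ∀ a ≤ k, Lay G N (fun a A => a ≤ k ∧ L A) a A := by
  induction h with
  | leaf A hA => exact fun a ha => Lay.leaf a A ⟨ha, hA⟩
  | node A B C hABC hB hC _ _ ihB ihC =>
    exact fun a ha => Lay.node a k k A B C hABC hB hC (by omega) (ihB k le_rfl) (ihC k le_rfl)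

theorem layout_mono {V : Type*} {P P' L : Set V → Prop} (hP : ∀ A, P A → P' A) {A : Set V}
    (h : Layout P L A) : Layout P' L A := by
  induction h with
  | leaf A hA => exact Layout.leaf A hA
  | node A B C hABC hB hC _ _ ihB ihC => exact Layout.node A B C hABC (hP B hB) (hP C hC) ihB ihC

theorem size_bound {V : Type*} [Fintype V] (G : SimpleGraph V) (hG : G.Connected) (k m : ℕ)
    (h : Layout (Guarded G k) (fun A => A.ncard ≤ m) Set.univ) :
    (copNumber G : ℝ) ≤ 3 * k + 81 * √(m : ℝ) * (Real.log m + 1) + 1 := by
  set q : ℕ := ⌈81 * √(m : ℝ) * (Real.log m + 1)⌉₊ with hq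
  have h1 : copNumber G ≤ 3 * k + q := by
    refine lay_bound hG (3 * k + q) _ ?_ (lay_of_layout (by omega) h 0 (Nat.zero_le _))
    rintro a A ⟨ha, hA⟩
    exact ⟨q, by omega, compLe_of_card G m A hA q (Nat.le_ceil _)⟩
  have h2 : 0 ≤ 81 * √(m : ℝ) * (Real.log m + 1) := by
    have : 0 ≤ Real.log (m : ℝ) := Real.log_natCast_nonneg m
    positivity
  have h3 := Nat.ceil_lt_add_one h2
  have h4 : (copNumber G : ℝ) ≤ 3 * k + q := by exact_mod_cast h1
  rw [hq] at h4
  linarith

theorem guarded_singleton {V : Type*} (G : SimpleGraph V) (v : V) : Guarded G 1 {v} := by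
  refine ⟨{v}, by simp, ?_⟩
  rintro x rfl -
  exact ⟨x, by simp, Or.inl rfl⟩

theorem linear_lay {V : Type*} [Fintype V] (G : SimpleGraph V) (k n : ℕ) (hk : 1 ≤ k)
    (v : Fin n ≃ V) (hv : ∀ i : ℕ, MimLe G k {x | i ≤ (v.symm x).1}) (t : ℕ) :
    ∀ i, i + t = n → Lay G (2 * k + 1) (fun a A => a ≤ k ∧ A.Subsingleton) k
      {x | i ≤ (v.symm x).1} := by
  induction t with
  | zero =>
    intro i hi
    refine Lay.leaf _ _ ⟨le_rfl, ?_⟩
    intro x hx
    have := (v.symm x).2
    simp only [Set.mem_ofPred_eq] at hx
    omega
  | succ t ih =>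
    intro i hi
    refine Lay.node k 1 k _ {v ⟨i, by omega⟩} {x | i + 1 ≤ (v.symm x).1} ?_
      (guarded_singleton G _) (guarded_of_mim (hv _)) (by omega)
      (Lay.leaf _ _ ⟨hk, Set.subsingleton_singleton⟩) (ih (i + 1) (by omega))
    intro x hx
    simp only [Set.mem_ofPred_eq] at hx
    rcases Nat.lt_or_ge i (v.symm x).1 with h | h
    · right
      exact h
    · left
      have : v.symm x = ⟨i, by omega⟩ := Fin.ext (by simp only; omega)
      rw [Set.mem_singleton_iff, ← this, Equiv.apply_symm_apply]

/-- Let `G` be a connected graph on `n` vertices.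
(1) If the mim-width of `G` is at most `k` (`k ≥ 1`) then `c(G) ≤ 3 k`.
(2) If the linear mim-width of `G` is at most `k` (`k ≥ 1`) then `c(G) ≤ 2 k + 1`.
(3) If the set of vertices can be partitioned recursively into sets of at most `m` vertices by
cuts such that the boundary of each part is dominated by `k` vertices, then
`c(G) ≤ 3 k + 81 √m (log m + 1) + 1`; in particular this holds if all the cuts have mim-value at
most `k`.
(4) So Meyniel's bound holds, `c(G) ≤ (3 C + 82) √n`, if `k ≤ C √n` and `m ≤ n / (log n + 1) ^ 2`. -/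
theorem result {V : Type*} [Fintype V] (G : SimpleGraph V) (hG : G.Connected) :
    (∀ k : ℕ, 1 ≤ k → Layout (MimLe G k) Set.Subsingleton Set.univ → copNumber G ≤ 3 * k) ∧
    (∀ k : ℕ, 1 ≤ k → ∀ v : Fin (Fintype.card V) ≃ V,
      (∀ i : ℕ, MimLe G k {x | i ≤ (v.symm x).1}) → copNumber G ≤ 2 * k + 1) ∧
    (∀ k m : ℕ, (Layout (Guarded G k) (fun A => A.ncard ≤ m) Set.univ ∨
        Layout (MimLe G k) (fun A => A.ncard ≤ m) Set.univ) →
      (copNumber G : ℝ) ≤ 3 * k + 81 * √(m : ℝ) * (Real.log m + 1) + 1) ∧
    (∀ (C : ℝ) (k m : ℕ), (k : ℝ) ≤ C * √(Fintype.card V : ℝ) →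
      (m : ℝ) ≤ Fintype.card V / (Real.log (Fintype.card V) + 1) ^ 2 →
      (Layout (Guarded G k) (fun A => A.ncard ≤ m) Set.univ ∨
        Layout (MimLe G k) (fun A => A.ncard ≤ m) Set.univ) →
      (copNumber G : ℝ) ≤ (3 * C + 82) * √(Fintype.card V : ℝ)) := by
  have h3 : ∀ k m : ℕ, (Layout (Guarded G k) (fun A => A.ncard ≤ m) Set.univ ∨
        Layout (MimLe G k) (fun A => A.ncard ≤ m) Set.univ) →
      (copNumber G : ℝ) ≤ 3 * k + 81 * √(m : ℝ) * (Real.log m + 1) + 1 := by
    rintro k m (h | h)
    · exact size_bound G hG k m h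
    · exact size_bound G hG k m (layout_mono (fun A hA => guarded_of_mim hA) h)
  refine ⟨fun k hk h => ?_, fun k hk v hv => ?_, h3, fun C k m hk hm h => ?_⟩
  · refine lay_bound hG (3 * k) _ ?_ (lay_of_layout le_rfl
      (layout_mono (fun A hA => guarded_of_mim hA) h) 0 (Nat.zero_le _))
    rintro a A ⟨ha, hA⟩
    exact ⟨1, by omega, compLe_of_subsingleton G A hA⟩
  · have h1 := linear_lay G k (Fintype.card V) hk v hv (Fintype.card V) 0 (by omega)
    have h2 : {x : V | 0 ≤ (v.symm x).1} = Set.univ := by
      ext x
      simp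
    rw [h2] at h1
    refine lay_bound hG (2 * k + 1) (fun a A => a ≤ k ∧ A.Subsingleton) ?_ ?_
    · rintro a A ⟨ha, hA⟩
      exact ⟨1, by omega, compLe_of_subsingleton G A hA⟩
    · cases h1 with
      | leaf _ _ h1 => exact Lay.leaf _ _ ⟨Nat.zero_le _, h1.2⟩
      | node _ b c _ B C h1 h2 h3 h4 h5 h6 => exact Lay.node 0 b c _ B C h1 h2 h3 (by omega) h5 h6
  · have h1 := h3 k m h
    have hne := hG.nonempty
    have hn : (1 : ℝ) ≤ Fintype.card V := by exact_mod_cast Fintype.card_pos (α := V)
    set n : ℝ := (Fintype.card V : ℝ) with hndef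
    have hl : 0 ≤ Real.log n := Real.log_nonneg hn
    have hs : 1 ≤ √n := Real.one_le_sqrt.2 hn
    have hm' : (m : ℝ) ≤ n := by
      refine hm.trans (div_le_self (by linarith) ?_)
      nlinarith
    have h4 : √(m : ℝ) * (Real.log m + 1) ≤ √n := by
      have h5 : Real.log (m : ℝ) ≤ Real.log n := by
        rcases Nat.eq_zero_or_pos m with h0 | h0
        · subst h0
          simpa using hl
        · exact Real.log_le_log (by exact_mod_cast h0) hm'
      have h6 : √(m : ℝ) * (Real.log m + 1) ≤ √(m : ℝ) * (Real.log n + 1) := by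
        have := Real.sqrt_nonneg (m : ℝ)
        gcongr
      refine h6.trans (Real.le_sqrt_of_sq_le ?_)
      rw [mul_pow, Real.sq_sqrt (Nat.cast_nonneg m)]
      rwa [le_div_iff₀ (by positivity)] at hm
    nlinarith
end Pool.Agent.Results.MP_964892_co.MimWidth
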