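import Pool.Agent.R158.Mey.Bounds

set_option autoImplicit false
open N6ef48c04

namespace Pool.Agent.Results.MP_964892_co.SecondNeighbourhoods

/-!
# The cop number and the balls of radius two

Meyniel's bound `c(G) = O(√n)` holds for all connected graphs on `n` vertices in which boundedly
many balls of radius `2` cover all but `n / (log n + 1) ^ 2` vertices, and for those in which all
but `n / (log n + 1) ^ 2` vertices have linearly many vertices at distance at most `2`. Known were
the graphs of diameter `2` and the bipartite graphs of diameter `3` (Lu and Peng). The starting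
file `GuardedBalls` has the balls of radius `1`.

Proof idea. Let `A` be a set of vertices whose balls of radius `r` are guarded by one cop each. It
is chosen greedily such that every ball of radius `r` contains at most `q` vertices which are
neither guarded nor exceptional. Other cops wait such that each vertex which is not exceptional has
`q` of them at distance at most `r + 1`. When the robber has `r` moves left before a given late
time, at most `q` unguarded vertices are possible as his position at that time, and by Hall's
theorem each of them is the target of a waiting cop of its own, who arrives in time. The entropy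
method of the starting files deals with the exceptional vertices.
-/

/-- Let `G` be a connected graph on `n` vertices. Let `r ≤ 1`, or let `G` have no cycle of length
less than `4 r - 1`. (For `r = 1` there is no condition, and (1)-(4) are about balls of radius
`2`.)
(1) `c(G) ≤ 2 √(|D| n) + 81 √m (log n + 1)` for every set `D` of vertices, where `m` is the number
of vertices at distance more than `r + 1` from `D`.
(2) If moreover `m (log n + 1) ^ 2 ≤ n`, then `c(G) ≤ (2 √|D| + 81) √n`.
(3) `c(G) ≤ 4 n / √b + (2 n / b) log n + 81 √m (log n + 1)` for every `b > 0`, where `m` is the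
number of vertices with fewer than `b` vertices at distance at most `r + 1`.
(4) Let `0 < δ ≤ 1`, and let `m` be the number of vertices with fewer than `δ n` vertices at distance at
most `r + 1`. If `m (log n + 1) ^ 2 ≤ n`, then `c(G) ≤ (81 + 8 / δ) √n`. -/
theorem result {V : Type*} [Fintype V] [DecidableEq V] (G : SimpleGraph V) (hG : G.Connected)
    (r : ℕ) (hr : r ≤ 1 ∨ ∀ (a : V) (w : G.Walk a a), w.IsCycle → 4 * r - 1 ≤ w.length) :
    (∀ D : Finset V, (copNumber G : ℝ) ≤ 2 * √((D.card : ℝ) * Fintype.card V) +
      81 * √((Finset.univ.filter fun z => ∀ d ∈ D, r + 1 < G.dist d z).card : ℝ) *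
        (Real.log (Fintype.card V) + 1)) ∧
    (∀ D : Finset V,
      ((Finset.univ.filter fun z => ∀ d ∈ D, r + 1 < G.dist d z).card : ℝ) *
        (Real.log (Fintype.card V) + 1) ^ 2 ≤ Fintype.card V →
      (copNumber G : ℝ) ≤ (2 * √(D.card : ℝ) + 81) * √(Fintype.card V : ℝ)) ∧
    (∀ b : ℕ, 0 < b → (copNumber G : ℝ) ≤ 4 * Fintype.card V / √(b : ℝ) +
      2 * Fintype.card V / b * Real.log (Fintype.card V) +
      81 * √((Finset.univ.filter fun z =>
        (Finset.univ.filter fun v => G.dist v z ≤ r + 1).card < b).card : ℝ) *
        (Real.log (Fintype.card V) + 1)) ∧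
    (∀ δ : ℝ, 0 < δ → δ ≤ 1 →
      ((Finset.univ.filter fun z => ((Finset.univ.filter fun v =>
        G.dist v z ≤ r + 1).card : ℝ) < δ * Fintype.card V).card : ℝ) *
          (Real.log (Fintype.card V) + 1) ^ 2 ≤ Fintype.card V →
      (copNumber G : ℝ) ≤ (81 + 8 / δ) * √(Fintype.card V : ℝ)) := by
  have hg : ∀ (a : V) (w : G.Walk a a), w.IsCycle → 4 * r - 1 ≤ w.length := by
    intro a w hw
    rcases hr with h | h
    · have := hw.three_le_length
      omega
    · exact h a w hw
  have hV : Nonempty V := hG.nonempty
  have hn1 : (1 : ℝ) ≤ Fintype.card V := by exact_mod_cast Fintype.card_pos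
  have hlog0 : 0 ≤ Real.log (Fintype.card V) := Real.log_nonneg hn1
  refine ⟨fun D => Pool.Agent.R158.Mey.dom_bound G hG r hg D, fun D hm => ?_,
    fun b hb => Pool.Agent.R158.Mey.size_bound G hG r hg b hb,
    fun δ h1 h2 h3 => Pool.Agent.R158.Mey.linear_bound G hG r hg δ h1 h2 h3⟩
  have h1 := Pool.Agent.R158.Mey.dom_bound G hG r hg D
  set m : ℝ := ((Finset.univ.filter fun z => ∀ d ∈ D, r + 1 < G.dist d z).card : ℝ) with hmdef
  have h2 : √m * (Real.log (Fintype.card V) + 1) ≤ √(Fintype.card V : ℝ) := by
    apply Real.le_sqrt_of_sq_le
    rw [mul_pow, Real.sq_sqrt (by positivity)]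
    exact hm
  rw [Real.sqrt_mul (by positivity)] at h1
  have h3 : 81 * √m * (Real.log (Fintype.card V) + 1) =
      81 * (√m * (Real.log (Fintype.card V) + 1)) := by ring
  rw [h3] at h1
  have h4 : (2 * √(D.card : ℝ) + 81) * √(Fintype.card V : ℝ) =
      2 * (√(D.card : ℝ) * √(Fintype.card V : ℝ)) + 81 * √(Fintype.card V : ℝ) := by ring
  rw [h4]
  linarith

end Pool.Agent.Results.MP_964892_co.SecondNeighbourhoods
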